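import Pool.Agent.Lib.MP_2dc536_an.X.GenE

namespace Pool.Agent.Results.MP_2dc536_an.ExplicitDescent

open Real Set MeasureTheory
open Pool.Agent.Lib.MP_2dc536_an

theorem result (f : ℝ → ℝ)
    (hf : ∀ x : ℝ, f x = x + 1 / 4 - (x / 2 + 1 / 4) * Real.cos (Real.pi * x))
    (M X : ℝ) (hM : 1503 ≤ M) (hX : 10 ^ 13 * (M * Real.sqrt M) ≤ X) :
    MeasureTheory.volume {x : ℝ | x ∈ Set.Icc 0 X ∧ ∀ k : ℕ, M ≤ f^[k] x} ≤
      ENNReal.ofReal (13 / Real.sqrt M * X) := by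
  obtain rfl : f = ff := funext hf
  have hm : MeasurableSet {x : ℝ | ∀ k : ℕ, M ≤ ff^[k] x} := by
    have : {x : ℝ | ∀ k : ℕ, M ≤ ff^[k] x} = ⋂ k : ℕ, ff^[k] ⁻¹' Ici M := by ext x; simp
    rw [this]
    exact MeasurableSet.iInter fun k => (measurable_ff.iterate k) measurableSet_Ici
  have h0 : (0 : ℝ) ≤ M := by linarith
  have h1 : (⌊M⌋₊ : ℝ) ≤ M := Nat.floor_le h0
  have h2 : M < ⌊M⌋₊ + 1 := Nat.lt_floor_add_one M
  have h3 : 1503 ≤ ⌊M⌋₊ := Nat.le_floor (by exact_mod_cast hM)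
  have r1 : (387 / 10 : ℝ) ≤ √M := Real.le_sqrt_of_sq_le (by linarith)
  have r2 : √M * √M = M := Real.mul_self_sqrt h0
  have r3 : 9986 / 10000 * √M ≤ √((⌊M⌋₊ : ℝ) - 3) := Real.le_sqrt_of_sq_le (by nlinarith)
  have r4 : 386 / 10 * √M ≤ (⌊M⌋₊ : ℝ) - 2 := by nlinarith
  have r0 : 0 < √M := by linarith
  have a1 : 81 / 100 / √((⌊M⌋₊ : ℝ) - 3) ≤ 81 / 100 / (9986 / 10000 * √M) :=
    div_le_div_of_nonneg_left (by norm_num) (by positivity) r3
  have a2 : 63 / 100 / ((⌊M⌋₊ : ℝ) - 2) ≤ 63 / 100 / (386 / 10 * √M) :=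
    div_le_div_of_nonneg_left (by norm_num) (by positivity) r4
  have hg : (0 : ℝ) < 1 / (10 * √M) := by positivity
  have z0 : (0 : ℝ) ≤ 1000000 + 257281600 * M := by positivity
  have z1 : 1000000 + 257281600 * M ≤ (⌈1000000 + 257281600 * M⌉₊ : ℝ) := Nat.le_ceil _
  have z2 : (⌈1000000 + 257281600 * M⌉₊ : ℝ) < 1000000 + 257281600 * M + 1 :=
    Nat.ceil_lt_add_one z0
  generalize ⌈1000000 + 257281600 * M⌉₊ = Z at z1 z2
  have z3 : √(Z : ℝ) ≤ 16041 * √M := Real.sqrt_le_iff.2 ⟨by positivity, by nlinarith⟩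
  have z4 : (2 * (Z : ℝ) + 1) * √(Z : ℝ) ≤ 514600000 * M * (16041 * √M) :=
    mul_le_mul (by linarith) z3 (Real.sqrt_nonneg _) (by positivity)
  have z5 : 1503 * √M ≤ M * √M := mul_le_mul_of_nonneg_right hM r0.le
  have e0 : 1604 / (1 / (10 * √M)) = 16040 * √M := by
    field_simp
    norm_num
  have hX0 : 0 ≤ X := le_trans (by positivity) hX
  have key := Pool.Agent.Lib.MP_2dc536_an.X.ge_highE hm (fun x hx k => by
      have := hx (k + 1)
      rwa [Function.iterate_succ_apply] at this) h3 (fun y hy => h1.trans (hy 0)) hg rfl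
    (Z := Z) (by rw [e0]; nlinarith) (X := X) (by rw [one_div_one_div]; nlinarith)
  refine le_trans (measure_mono ?_) (key.trans (ENNReal.ofReal_le_ofReal
    (mul_le_mul_of_nonneg_right ?_ hX0)))
  · exact fun x hx => ⟨hx.2, by have := hx.2 0; simp at this; linarith, hx.1.2⟩
  · have e1 : (81 / 100 : ℝ) / (9986 / 10000 * √M) = 8100 / 9986 * (√M)⁻¹ := by
      field_simp
      norm_num
    have e2 : (63 / 100 : ℝ) / (386 / 10 * √M) = 63 / 3860 * (√M)⁻¹ := by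
      field_simp
      norm_num
    have e3 : (1 : ℝ) / (10 * √M) = 1 / 10 * (√M)⁻¹ := by
      field_simp
    have p : 0 < (√M)⁻¹ := inv_pos.2 r0
    rw [e1] at a1
    rw [e2] at a2
    rw [div_eq_mul_inv 13, e3]
    push_cast
    linarith

end Pool.Agent.Results.MP_2dc536_an.ExplicitDescent
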