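import Pool.Agent.Lib.MP_2dc536_an.Lower

namespace Pool.Agent.Results.MP_2dc536_an.PositiveDensity

open Real Set MeasureTheory
open Pool.Agent.Lib.MP_2dc536_an

theorem result (f : ℝ → ℝ)
    (hf : ∀ x : ℝ, f x = x + 1 / 4 - (x / 2 + 1 / 4) * Real.cos (Real.pi * x))
    (S : Set ℝ) (hS : MeasurableSet S) (hS1 : S ⊆ Set.Ici 1) (hS0 : MeasureTheory.volume S ≠ 0) :
    ∃ c : ℝ, 0 < c ∧ ∃ X₀ : ℝ, ∀ X : ℝ, X₀ ≤ X →
      ENNReal.ofReal (c * X) ≤
        MeasureTheory.volume {x : ℝ | x ∈ Set.Icc (X / 3) X ∧ ∃ k : ℕ, f^[k] x ∈ S} := by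
  obtain rfl : f = ff := funext hf
  obtain ⟨n, hn⟩ : ∃ n : ℕ, volume (S ∩ Icc ((1 + n : ℕ) : ℝ) ((1 + n : ℕ) + 1)) ≠ 0 := by
    by_contra h
    push Not at h
    apply hS0
    refine measure_mono_null (fun x hx => ?_) (measure_iUnion_null h)
    have h1 : x ∈ Ici ((1 : ℕ) : ℝ) := by simpa using hS1 hx
    rw [← iUnion_Ico] at h1
    obtain ⟨k, hk⟩ := mem_iUnion.1 h1
    exact mem_iUnion.2 ⟨k, hx, Ico_subset_Icc_self hk⟩
  have h1 := pull_up_iter hn 60
  set m : ℕ := 2 ^ 60 * (1 + n) with hm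
  have hm1 : (6000 : ℝ) ^ 4 ≤ m := by
    rw [hm]; push_cast; nlinarith [(Nat.cast_nonneg n : (0 : ℝ) ≤ n)]
  have hN : 6000 ≤ qq (m + 1 : ℕ) := le_qq (by norm_num) (by push_cast; linarith)
  set J : Set ℝ := ff^[60] ⁻¹' S ∩ Ico (m : ℝ) (m + 1) with hJ
  have hJm : MeasurableSet J := ((measurable_ff.iterate 60) hS).inter measurableSet_Ico
  have hJ0 : volume J ≠ 0 := by
    rwa [hJ, measure_congr (ae_eq_set_inter (ae_eq_refl _) Ico_ae_eq_Icc)]
  have hJ1 : volume J ≠ ⊤ :=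
    ne_top_of_le_ne_top (by simp) (measure_mono (inter_subset_right : J ⊆ _))
  have hv : 0 < (volume J).toReal := ENNReal.toReal_pos hJ0 hJ1
  have hm0 : (0 : ℝ) < m + 1 := by positivity
  refine ⟨(volume J).toReal / (720 * (m + 1)), by positivity, 2 * (m + 1) + 1, fun X hX => ?_⟩
  have h2 := good_ge hN hJm (fun x hx => by simpa using hx.2) (X := X) (by push_cast; linarith)
  have hX1 : 0 < X - 1 := by linarith
  have hc : ENNReal.ofReal (2 / (X - 1)) ≠ 0 := by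
    rw [Ne, ENNReal.ofReal_eq_zero, not_le]; positivity
  rw [← ENNReal.mul_le_mul_iff_right hc ENNReal.ofReal_ne_top]
  refine le_trans ?_ (h2.trans ?_)
  · rw [← ENNReal.ofReal_toReal hJ1, ← ENNReal.ofReal_mul (by positivity),
      ← ENNReal.ofReal_mul (by positivity), ENNReal.toReal_ofReal hv.le]
    refine ENNReal.ofReal_le_ofReal ?_
    push_cast
    have h3 : 2 / (X - 1) * X ≤ 3 := by
      rw [div_mul_eq_mul_div, div_le_iff₀ hX1]; linarith
    calc 2 / (X - 1) * ((volume J).toReal / (720 * (m + 1)) * X)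
        = 2 / (X - 1) * X * ((volume J).toReal / (720 * (m + 1))) := by ring
      _ ≤ 3 * ((volume J).toReal / (720 * (m + 1))) := by gcongr
      _ = _ := by field_simp; ring
  · refine mul_le_mul' le_rfl (measure_mono ?_)
    rintro x ⟨hx, k, hk⟩
    refine ⟨⟨by linarith [hx.1], hx.2⟩, 60 + k, ?_⟩
    rw [Function.iterate_add_apply]
    exact hk.1

end Pool.Agent.Results.MP_2dc536_an.PositiveDensity
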